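import Mathlib

/-!
# The mobile general position number of the integer lattice

For every `k ≥ 1` the mobile general position number of the `k`-dimensional integer lattice is
`2 ^ (2 ^ (k - 1))`.
-/

namespace Pool.Agent.Results.MP_903b9e_co.MobLattice

open Finset

section Defs

variable {V : Type} (G : SimpleGraph V)

/-- `S` is in general position: no element of `S` lies on a shortest path between two others
(equivalently, no three elements of `S` lie on a common shortest path). -/
def GenPos (S : Set V) : Prop :=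
  ∀ x ∈ S, ∀ y ∈ S, ∀ z ∈ S, x ≠ y → y ≠ z → x ≠ z →
    ¬ ∃ w : G.Walk x z, w.length = G.dist x z ∧ y ∈ w.support

/-- One robot moves from `u` to an adjacent unoccupied vertex `v`, and the new set of occupied
vertices is in general position. -/
def Legal (A B : Set V) : Prop :=
  ∃ u ∈ A, ∃ v, v ∉ A ∧ G.Adj u v ∧ B = insert v (A \ {u}) ∧ GenPos G B

/-- Mobile general position sets: some finite or infinite sequence of legal moves starting from `S`
visits every vertex. -/
def IsMobile (S : Set V) : Prop :=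
  GenPos G S ∧ ∃ T : ℕ → Set V, T 0 = S ∧ (∀ n, T (n + 1) = T n ∨ Legal G (T n) (T (n + 1))) ∧
    ∀ v, ∃ n, v ∈ T n

/-- The mobile general position number. -/
noncomputable def mob : ℕ∞ := sSup {n | ∃ S : Set V, IsMobile G S ∧ S.encard = n}

end Defs

/-- The `k`-fold Cartesian product of two-way infinite paths. -/
def lattice (k : ℕ) : SimpleGraph (Fin k → ℤ) where
  Adj x y := ∃ i, |x i - y i| = 1 ∧ ∀ j, j ≠ i → x j = y j
  symm := ⟨fun x y ⟨i, h1, h2⟩ => ⟨i, by rw [abs_sub_comm]; exact h1, fun j hj => (h2 j hj).symm⟩⟩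
  loopless := ⟨fun x ⟨i, h1, _⟩ => by simp at h1⟩

/-- The `ℓ₁` distance. -/
def l1 {k : ℕ} (x y : Fin k → ℤ) : ℤ := ∑ i, |x i - y i|

lemma l1_self {k : ℕ} (x : Fin k → ℤ) : l1 x x = 0 := by simp [l1]

lemma l1_nonneg {k : ℕ} (x y : Fin k → ℤ) : 0 ≤ l1 x y := sum_nonneg fun _ _ => abs_nonneg _

lemma l1_adj {k : ℕ} {x y : Fin k → ℤ} (h : (lattice k).Adj x y) : l1 x y = 1 := by
  obtain ⟨i, h1, h2⟩ := h
  unfold l1
  rw [sum_eq_single i]
  · exact h1
  · intro j _ hj
    rw [h2 j hj, sub_self, abs_zero]
  · simp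

lemma l1_triangle {k : ℕ} (x y z : Fin k → ℤ) : l1 x z ≤ l1 x y + l1 y z := by
  unfold l1
  rw [← sum_add_distrib]
  exact sum_le_sum fun i _ => abs_sub_le _ _ _

lemma l1_le_length {k : ℕ} {x y : Fin k → ℤ} (w : (lattice k).Walk x y) : l1 x y ≤ w.length := by
  induction w with
  | nil => simp [l1_self]
  | @cons u v t h p ih =>
    rw [SimpleGraph.Walk.length_cons]
    have h1 := l1_triangle u v t
    rw [l1_adj h] at h1
    push_cast
    omega

lemma exists_walk {k : ℕ} (n : ℕ) : ∀ x y : Fin k → ℤ, l1 x y = n →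
    ∃ w : (lattice k).Walk x y, w.length = n := by
  induction n with
  | zero =>
    intro x y h
    have hxy : x = y := by
      funext i
      have := (sum_eq_zero_iff_of_nonneg (fun i _ => abs_nonneg (x i - y i))).mp h i (mem_univ i)
      rw [abs_eq_zero] at this
      omega
    subst hxy
    exact ⟨SimpleGraph.Walk.nil, rfl⟩
  | succ n ih =>
    intro x y h
    have hex : ∃ i, x i ≠ y i := by
      by_contra hcon
      push Not at hcon
      have : x = y := funext hcon
      rw [this, l1_self] at h
      push_cast at h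
      omega
    obtain ⟨i, hi⟩ := hex
    obtain ⟨d, hd1, hd2⟩ : ∃ d : ℤ, |d| = 1 ∧ |x i + d - y i| = |x i - y i| - 1 := by
      rcases lt_or_gt_of_ne hi with hlt | hgt
      · refine ⟨1, by norm_num, ?_⟩
        rw [abs_of_nonpos (by omega), abs_of_nonpos (by omega)]
        ring
      · refine ⟨-1, by norm_num, ?_⟩
        rw [abs_of_nonneg (by omega), abs_of_nonneg (by omega)]
        ring
    have hadj : (lattice k).Adj x (Function.update x i (x i + d)) := by
      refine ⟨i, ?_, ?_⟩
      · rw [Function.update_self, show x i - (x i + d) = -d by ring, abs_neg, hd1]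
      · intro j hj
        rw [Function.update_of_ne hj]
    have hl : l1 (Function.update x i (x i + d)) y = n := by
      have h1 : l1 x y = |x i - y i| + ∑ j ∈ univ.erase i, |x j - y j| := by
        exact (add_sum_erase univ (fun j => |x j - y j|) (mem_univ i)).symm
      have h2 : l1 (Function.update x i (x i + d)) y =
          |x i + d - y i| + ∑ j ∈ univ.erase i, |x j - y j| := by
        unfold l1
        rw [← add_sum_erase univ _ (mem_univ i), Function.update_self]
        congr 1
        apply sum_congr rfl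
        intro j hj
        rw [Function.update_of_ne (ne_of_mem_erase hj)]
      rw [h2, hd2]
      rw [h1] at h
      push_cast at h
      omega
    obtain ⟨w, hw⟩ := ih _ y hl
    exact ⟨SimpleGraph.Walk.cons hadj w, by rw [SimpleGraph.Walk.length_cons, hw]⟩

lemma lattice_reachable {k : ℕ} (x y : Fin k → ℤ) : (lattice k).Reachable x y := by
  obtain ⟨w, _⟩ := exists_walk (l1 x y).toNat x y (by rw [Int.toNat_of_nonneg (l1_nonneg x y)])
  exact w.reachable

lemma dist_lattice {k : ℕ} (x y : Fin k → ℤ) : ((lattice k).dist x y : ℤ) = l1 x y := by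
  obtain ⟨w, hw⟩ := exists_walk (l1 x y).toNat x y (by rw [Int.toNat_of_nonneg (l1_nonneg x y)])
  obtain ⟨p, hp⟩ := w.reachable.exists_walk_length_eq_dist
  have h1 := l1_le_length p
  have h2 := SimpleGraph.dist_le w
  have h3 := l1_nonneg x y
  rw [hp] at h1
  omega

lemma exists_geodesic {k : ℕ} (x y : Fin k → ℤ) :
    ∃ w : (lattice k).Walk x y, (w.length : ℤ) = l1 x y := by
  obtain ⟨w, hw⟩ := exists_walk (l1 x y).toNat x y (by rw [Int.toNat_of_nonneg (l1_nonneg x y)])
  exact ⟨w, by rw [hw, Int.toNat_of_nonneg (l1_nonneg x y)]⟩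

/-- If `y` lies on a shortest path from `x` to `z` then it is between them in every coordinate. -/
lemma between_of_walk {k : ℕ} {x y z : Fin k → ℤ} (w : (lattice k).Walk x z)
    (hw : w.length = (lattice k).dist x z) (hy : y ∈ w.support) (i : Fin k) :
    0 ≤ (y i - x i) * (z i - y i) := by
  classical
  have h1 : (w.takeUntil y hy).length + (w.dropUntil y hy).length = w.length := by
    rw [← SimpleGraph.Walk.length_append, SimpleGraph.Walk.take_spec]
  have h2 := l1_le_length (w.takeUntil y hy)
  have h3 := l1_le_length (w.dropUntil y hy)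
  have h4 : l1 x y + l1 y z ≤ l1 x z := by
    rw [← dist_lattice x z, ← hw]
    omega
  have h5 : ∀ j ∈ univ, |x j - z j| = |x j - y j| + |y j - z j| := by
    apply (sum_eq_sum_iff_of_le (fun j _ => abs_sub_le _ _ _)).mp
    rw [sum_add_distrib]
    exact le_antisymm (by rw [← sum_add_distrib]; exact sum_le_sum fun j _ => abs_sub_le _ _ _) h4
  have h6 := h5 i (mem_univ i)
  by_contra hneg
  push Not at hneg
  rcases mul_neg_iff.mp hneg with ⟨h7, h8⟩ | ⟨h7, h8⟩
  · rcases abs_cases (x i - z i) with h | h <;> rcases abs_cases (x i - y i) with h' | h' <;>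
      rcases abs_cases (y i - z i) with h'' | h'' <;> omega
  · rcases abs_cases (x i - z i) with h | h <;> rcases abs_cases (x i - y i) with h' | h' <;>
      rcases abs_cases (y i - z i) with h'' | h'' <;> omega

/-- If `y` is between `x` and `z` in every coordinate then it lies on a shortest path. -/
lemma walk_of_between {k : ℕ} {x y z : Fin k → ℤ}
    (h : ∀ i, |x i - z i| = |x i - y i| + |y i - z i|) :
    ∃ w : (lattice k).Walk x z, w.length = (lattice k).dist x z ∧ y ∈ w.support := by
  obtain ⟨p, hp⟩ := exists_geodesic x y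
  obtain ⟨q, hq⟩ := exists_geodesic y z
  refine ⟨p.append q, ?_, ?_⟩
  · have h1 : l1 x z = l1 x y + l1 y z := by
      unfold l1
      rw [← sum_add_distrib]
      exact sum_congr rfl fun i _ => h i
    have h2 := dist_lattice x z
    rw [SimpleGraph.Walk.length_append]
    omega
  · rw [SimpleGraph.Walk.mem_support_append_iff]
    exact Or.inl p.end_mem_support

section Upper

/-- The relation of being below in the order given by signs. -/
def R {m : ℕ} (ε : Fin m → Bool) (q p : Fin (m + 1) → ℤ) : Prop :=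
  q 0 ≤ p 0 ∧ ∀ i : Fin m, (ε i = true → q i.succ ≤ p i.succ) ∧ (ε i = false → p i.succ ≤ q i.succ)

lemma upper {m : ℕ} (S : Set (Fin (m + 1) → ℤ)) (hS : GenPos (lattice (m + 1)) S) :
    S.encard ≤ 2 ^ (2 ^ m) := by
  classical
  let label : (Fin (m + 1) → ℤ) → ((Fin m → Bool) → Bool) :=
    fun p ε => decide (∃ q ∈ S, q ≠ p ∧ R ε q p)
  have key : ∀ p ∈ S, ∀ q ∈ S, p ≠ q → q 0 ≤ p 0 → label p ≠ label q := by
    intro p hp q hq hpq h0 heq
    let ε : Fin m → Bool := fun i => decide (q i.succ ≤ p i.succ)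
    have hR : R ε q p := by
      refine ⟨h0, fun i => ⟨fun h => by simpa [ε] using h, fun h => ?_⟩⟩
      have : ¬ q i.succ ≤ p i.succ := by simpa [ε] using h
      omega
    have h1 : label p ε = true := by
      simp only [label, decide_eq_true_eq]
      exact ⟨q, hq, hpq.symm, hR⟩
    rw [heq] at h1
    simp only [label, decide_eq_true_eq] at h1
    obtain ⟨r, hr, hrq, hRr⟩ := h1
    have hrp : r ≠ p := by
      rintro rfl
      apply hpq
      funext i
      refine Fin.cases ?_ (fun i => ?_) i
      · exact le_antisymm hRr.1 hR.1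
      · cases hε : ε i
        · exact le_antisymm ((hR.2 i).2 hε) ((hRr.2 i).2 hε)
        · exact le_antisymm ((hRr.2 i).1 hε) ((hR.2 i).1 hε)
    refine hS r hr q hq p hp hrq hpq.symm hrp (walk_of_between ?_)
    intro i
    refine Fin.cases ?_ (fun i => ?_) i
    · have h2 := hRr.1
      have h3 := hR.1
      rw [abs_of_nonpos (by omega), abs_of_nonpos (by omega), abs_of_nonpos (by omega)]
      ring
    · cases hε : ε i
      · have h2 := (hRr.2 i).2 hε
        have h3 := (hR.2 i).2 hε
        rw [abs_of_nonneg (by omega), abs_of_nonneg (by omega), abs_of_nonneg (by omega)]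
        ring
      · have h2 := (hRr.2 i).1 hε
        have h3 := (hR.2 i).1 hε
        rw [abs_of_nonpos (by omega), abs_of_nonpos (by omega), abs_of_nonpos (by omega)]
        ring
  have hinj : Set.InjOn label S := by
    intro p hp q hq heq
    by_contra hpq
    rcases le_total (q 0) (p 0) with h | h
    · exact key p hp q hq hpq h heq
    · exact key q hq p hp (Ne.symm hpq) h heq.symm
  rw [← hinj.encard_image]
  refine (Set.encard_le_encard (Set.subset_univ _)).trans ?_
  rw [Set.encard_univ, ENat.card_eq_coe_fintype_card]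
  simp

end Upper

section Lower

/-- The value of a bit. -/
def bv (b : Bool) : ℤ := if b then 1 else 0

lemma super_bound (n : ℕ) (c s : Fin n → ℤ) (hc : ∀ j, |c j| ≤ 1) (hs : ∀ j, |s j| = 1) :
    |∑ j, c j * s j * 2 ^ (j : ℕ)| ≤ 2 ^ n - 1 := by
  induction n with
  | zero => simp
  | succ n ih =>
    rw [Fin.sum_univ_castSucc]
    have h1 := ih (fun j => c j.castSucc) (fun j => s j.castSucc) (fun j => hc _) (fun j => hs _)
    simp only [Fin.val_castSucc, Fin.val_last] at h1 ⊢
    have h2 : |c (Fin.last n) * s (Fin.last n) * 2 ^ n| ≤ 2 ^ n := by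
      rw [abs_mul, abs_mul, hs, mul_one, abs_of_nonneg (by positivity : (0 : ℤ) ≤ 2 ^ n)]
      have := hc (Fin.last n)
      have h3 : (0 : ℤ) ≤ 2 ^ n := by positivity
      nlinarith
    refine (abs_add_le _ _).trans ?_
    rw [pow_succ]
    omega

lemma super_top (n : ℕ) (c : Fin n → ℤ) (hc : ∀ j, c j = -1 ∨ c j = 0 ∨ c j = 1)
    (hne : ∃ j, c j ≠ 0) : ∃ j, c j ≠ 0 ∧ ∀ s : Fin n → ℤ, (∀ l, s l = 1 ∨ s l = -1) →
      1 ≤ (∑ l, c l * s l * 2 ^ (l : ℕ)) * (c j * s j) := by
  induction n with
  | zero => obtain ⟨j, _⟩ := hne; exact j.elim0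
  | succ n ih =>
    by_cases h : c (Fin.last n) = 0
    · have hne' : ∃ j : Fin n, c j.castSucc ≠ 0 := by
        obtain ⟨j, hj⟩ := hne
        refine Fin.lastCases (fun hj => absurd h hj) (fun j hj => ⟨j, hj⟩) j hj
      obtain ⟨j, hj1, hj2⟩ := ih (fun j => c j.castSucc) (fun j => hc _) hne'
      refine ⟨j.castSucc, hj1, fun s hs => ?_⟩
      rw [Fin.sum_univ_castSucc, h]
      simp only [zero_mul, add_zero, Fin.val_castSucc]
      exact hj2 (fun j => s j.castSucc) (fun j => hs _)
    · refine ⟨Fin.last n, h, fun s hs => ?_⟩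
      rw [Fin.sum_univ_castSucc]
      have h1 := super_bound n (fun j => c j.castSucc) (fun j => s j.castSucc)
        (fun j => by rcases hc j.castSucc with h | h | h <;> simp [h])
        (fun j => by rcases hs j.castSucc with h | h <;> simp [h])
      simp only [Fin.val_castSucc, Fin.val_last] at h1 ⊢
      set X := ∑ x : Fin n, c x.castSucc * s x.castSucc * 2 ^ (x : ℕ) with hX
      rw [abs_le] at h1
      rcases hc (Fin.last n) with h2 | h2 | h2
      · rcases hs (Fin.last n) with h3 | h3 <;> rw [h2, h3] <;> omega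
      · exact absurd h2 h
      · rcases hs (Fin.last n) with h3 | h3 <;> rw [h2, h3] <;> omega

variable {m : ℕ}

/-- An enumeration of the sign vectors. -/
noncomputable def en (m : ℕ) : (Fin m → Bool) ≃ Fin (2 ^ m) :=
  Fintype.equivFinOfCardEq (by simp)

/-- The sign attached to an index and a coordinate. -/
noncomputable def sg (j : Fin (2 ^ m)) (i : Fin (m + 1)) : ℤ :=
  Fin.cases 1 (fun i' => if (en m).symm j i' then 1 else -1) i

lemma sg_zero (j : Fin (2 ^ m)) : sg j 0 = 1 := rfl

lemma sg_pm (j : Fin (2 ^ m)) (i : Fin (m + 1)) : sg j i = 1 ∨ sg j i = -1 := by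
  refine Fin.cases (Or.inl rfl) (fun i => ?_) i
  simp only [sg, Fin.cases_succ]
  split_ifs
  · exact Or.inl rfl
  · exact Or.inr rfl

lemma sg_inj {j j' : Fin (2 ^ m)} (h : ∀ i, sg j i = sg j' i) : j = j' := by
  apply (en m).symm.injective
  funext i
  have := h i.succ
  simp only [sg, Fin.cases_succ] at this
  by_cases h1 : (en m).symm j i = true <;> by_cases h2 : (en m).symm j' i = true
  · rw [h1, h2]
  · simp [h1, h2] at this
  · simp [h1, h2] at this
  · rw [Bool.not_eq_true] at h1 h2
    rw [h1, h2]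

/-- Index set of the robots. -/
abbrev Idx (m : ℕ) : Type := Fin (2 ^ m) → Bool

/-- The initial positions of the robots. -/
noncomputable def pos (F : Idx m) (i : Fin (m + 1)) : ℤ :=
  2 * ∑ j, bv (F j) * sg j i * 2 ^ (j : ℕ)

/-- A configuration has margin `q` if any two robots differ in every coordinate by at least `q`, in
the direction given by an index at which their names differ. -/
def Margin (q : ℤ) (Q : Idx m → Fin (m + 1) → ℤ) : Prop :=
  ∀ F H : Idx m, F ≠ H → ∃ j, ∃ t : ℤ, t = bv (H j) - bv (F j) ∧ (t = 1 ∨ t = -1) ∧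
    ∀ i, q ≤ (Q H i - Q F i) * (t * sg j i)

lemma margin_pos : Margin 2 (pos (m := m)) := by
  intro F H hFH
  have hc : ∀ j, bv (H j) - bv (F j) = -1 ∨ bv (H j) - bv (F j) = 0 ∨
      bv (H j) - bv (F j) = 1 := by
    intro j
    cases H j <;> cases F j <;> simp [bv]
  have hne : ∃ j, bv (H j) - bv (F j) ≠ 0 := by
    by_contra hcon
    push Not at hcon
    apply hFH
    funext j
    have := hcon j
    cases h1 : H j <;> cases h2 : F j <;> simp [bv, h1, h2] at this ⊢
  obtain ⟨j, hj1, hj2⟩ := super_top (2 ^ m) (fun j => bv (H j) - bv (F j)) hc hne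
  refine ⟨j, _, rfl, ?_, fun i => ?_⟩
  · rcases hc j with h | h | h
    · exact Or.inr h
    · exact absurd h hj1
    · exact Or.inl h
  · have h1 := hj2 (fun l => sg l i) (fun l => sg_pm l i)
    have h2 : pos H i - pos F i =
        2 * ∑ l, (bv (H l) - bv (F l)) * sg l i * 2 ^ (l : ℕ) := by
      unfold pos
      rw [← mul_sub, ← sum_sub_distrib]
      congr 1
      apply sum_congr rfl
      intro l _
      ring
    rw [h2]
    linarith

lemma margin_perturb {q : ℤ} {Q Q' : Idx m → Fin (m + 1) → ℤ} (h : Margin q Q)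
    (hQ : ∀ F H i, |(Q' H i - Q' F i) - (Q H i - Q F i)| ≤ 1) : Margin (q - 1) Q' := by
  intro F H hFH
  obtain ⟨j, t, ht1, ht2, h3⟩ := h F H hFH
  refine ⟨j, t, ht1, ht2, fun i => ?_⟩
  have h4 := h3 i
  have h5 := abs_le.mp (hQ F H i)
  rcases ht2 with h6 | h6 <;> rcases sg_pm j i with h7 | h7 <;> rw [h6, h7] at h4 ⊢ <;> omega

lemma Margin.injective {Q : Idx m → Fin (m + 1) → ℤ} (h : Margin 1 Q) :
    Function.Injective Q := by
  intro F H hFH
  by_contra hne
  obtain ⟨j, t, _, _, h3⟩ := h F H hne
  have := h3 0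
  rw [hFH] at this
  simp at this

lemma Margin.genPos {Q : Idx m → Fin (m + 1) → ℤ} (h : Margin 1 Q) :
    GenPos (lattice (m + 1)) (Set.range Q) := by
  rintro _ ⟨F, rfl⟩ _ ⟨G, rfl⟩ _ ⟨H, rfl⟩ hFG hGH hFH ⟨w, hw, hy⟩
  have h1 : F ≠ G := fun h => hFG (by rw [h])
  have h2 : G ≠ H := fun h => hGH (by rw [h])
  obtain ⟨j, t, ht1, ht2, h3⟩ := h F G h1
  obtain ⟨j', t', ht1', ht2', h3'⟩ := h G H h2
  have hb := fun i => between_of_walk w hw hy i
  have hsame : ∀ i, t * sg j i = t' * sg j' i := by
    intro i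
    have e1 := h3 i
    have e2 := h3' i
    have e3 := hb i
    have f1 : t * sg j i = 1 ∨ t * sg j i = -1 := by
      rcases ht2 with h6 | h6 <;> rcases sg_pm j i with h7 | h7 <;> rw [h6, h7] <;> simp
    have f2 : t' * sg j' i = 1 ∨ t' * sg j' i = -1 := by
      rcases ht2' with h6 | h6 <;> rcases sg_pm j' i with h7 | h7 <;> rw [h6, h7] <;> simp
    rcases f1 with f1 | f1 <;> rcases f2 with f2 | f2 <;> rw [f1] at e1 ⊢ <;> rw [f2] at e2 ⊢
    · exfalso
      have : 1 ≤ Q G i - Q F i := by omega
      have : Q H i - Q G i ≤ -1 := by omega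
      nlinarith
    · exfalso
      have : Q G i - Q F i ≤ -1 := by omega
      have : 1 ≤ Q H i - Q G i := by omega
      nlinarith
  have htt : t = t' := by
    have := hsame 0
    rwa [sg_zero, sg_zero, mul_one, mul_one] at this
  have hjj : j = j' := by
    apply sg_inj
    intro i
    have := hsame i
    rw [← htt] at this
    rcases ht2 with h6 | h6 <;> rw [h6] at this <;> omega
  subst hjj htt
  rcases ht2 with h6 | h6 <;> rw [h6] at ht1 ht1' <;> cases h7 : F j <;> cases h8 : G j <;>
    cases h9 : H j <;> simp [bv, h7, h8, h9] at ht1 ht1'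

/-- Translating all robots of a set `A` of indices by `δ`. -/
def shiftOn (Q : Idx m → Fin (m + 1) → ℤ) (δ : Fin (m + 1) → ℤ) (A : Finset (Idx m)) :
    Idx m → Fin (m + 1) → ℤ := fun F i => if F ∈ A then Q F i + δ i else Q F i

lemma margin_shiftOn {Q : Idx m → Fin (m + 1) → ℤ} (h : Margin 2 Q) {δ : Fin (m + 1) → ℤ}
    (hδ : ∀ i, |δ i| ≤ 1) (A : Finset (Idx m)) : Margin 1 (shiftOn Q δ A) := by
  have := margin_perturb (Q' := shiftOn Q δ A) h (by
    intro F H i
    have h1 := abs_le.mp (hδ i)
    rw [abs_le]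
    unfold shiftOn
    split_ifs <;> constructor <;> omega)
  exact this

lemma reach_shift {Q : Idx m → Fin (m + 1) → ℤ} (h : Margin 2 Q) {x y : Fin (m + 1) → ℤ}
    (hxy : (lattice (m + 1)).Adj x y) (A : Finset (Idx m)) :
    Relation.ReflTransGen (Legal (lattice (m + 1))) (Set.range Q)
      (Set.range (shiftOn Q (y - x) A)) := by
  classical
  obtain ⟨i₀, hi1, hi2⟩ := hxy
  have hδ : ∀ i, |(y - x) i| ≤ 1 := by
    intro i
    by_cases hi : i = i₀
    · rw [hi, Pi.sub_apply, abs_sub_comm, hi1]
    · rw [Pi.sub_apply, hi2 i hi, sub_self, abs_zero]; norm_num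
  induction A using Finset.induction_on with
  | empty =>
    have : shiftOn Q (y - x) ∅ = Q := by
      funext F i; simp [shiftOn]
    rw [this]
  | insert F A hF ih =>
    refine ih.tail ?_
    have hm1 := margin_shiftOn h hδ A
    have hm2 := margin_shiftOn h hδ (insert F A)
    have hF1 : shiftOn Q (y - x) A F = Q F := by funext i; simp [shiftOn, hF]
    have hF2 : shiftOn Q (y - x) (insert F A) F = Q F + (y - x) := by
      funext i; simp [shiftOn]
    have hother : ∀ H, H ≠ F → shiftOn Q (y - x) (insert F A) H = shiftOn Q (y - x) A H := by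
      intro H hH; funext i; simp [shiftOn, hH]
    refine ⟨Q F, ⟨F, hF1⟩, Q F + (y - x), ?_, ?_, ?_, hm2.genPos⟩
    · rintro ⟨H, hH⟩
      by_cases hHF : H = F
      · subst hHF
        rw [hF1] at hH
        have := congrFun hH i₀
        simp only [Pi.add_apply, Pi.sub_apply] at this
        have h0 : x i₀ - y i₀ = 0 := by omega
        rw [h0] at hi1
        simp at hi1
      · have : shiftOn Q (y - x) (insert F A) H = shiftOn Q (y - x) (insert F A) F := by
          rw [hother H hHF, hH, hF2]
        exact hHF (hm2.injective this)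
    · refine ⟨i₀, ?_, ?_⟩
      · simp only [Pi.add_apply, Pi.sub_apply]
        rw [show Q F i₀ - (Q F i₀ + (y i₀ - x i₀)) = x i₀ - y i₀ by ring, hi1]
      · intro j hj
        simp only [Pi.add_apply, Pi.sub_apply]
        rw [hi2 j hj]
        ring
    · ext v
      simp only [Set.mem_range, Set.mem_insert_iff, Set.mem_sdiff, Set.mem_singleton_iff]
      constructor
      · rintro ⟨H, rfl⟩
        by_cases hHF : H = F
        · left; rw [hHF, hF2]
        · right
          refine ⟨⟨H, (hother H hHF).symm⟩, fun hcon => hHF ?_⟩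
          rw [hother H hHF, ← hF1] at hcon
          exact hm1.injective hcon
      · rintro (rfl | ⟨⟨H, rfl⟩, hne⟩)
        · exact ⟨F, hF2⟩
        · refine ⟨H, hother H ?_⟩
          rintro rfl
          exact hne hF1

/-- The translated initial configuration. -/
noncomputable def conf (c : Fin (m + 1) → ℤ) : Idx m → Fin (m + 1) → ℤ := fun F => pos F + c

lemma margin_conf (c : Fin (m + 1) → ℤ) : Margin 2 (conf c) := by
  intro F H hFH
  obtain ⟨j, t, h1, h2, h3⟩ := margin_pos F H hFH
  refine ⟨j, t, h1, h2, fun i => ?_⟩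
  have h4 : conf c H i - conf c F i = pos H i - pos F i := by
    simp only [conf, Pi.add_apply]; ring
  rw [h4]
  exact h3 i

lemma margin_one {Q : Idx m → Fin (m + 1) → ℤ} (h : Margin 2 Q) : Margin 1 Q := by
  intro F H hFH
  obtain ⟨j, t, h1, h2, h3⟩ := h F H hFH
  exact ⟨j, t, h1, h2, fun i => by have := h3 i; omega⟩

lemma reach_adj {x y : Fin (m + 1) → ℤ} (hxy : (lattice (m + 1)).Adj x y) :
    Relation.ReflTransGen (Legal (lattice (m + 1))) (Set.range (conf (m := m) x))
      (Set.range (conf (m := m) y)) := by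
  have h := reach_shift (margin_conf x) hxy univ
  have h2 : shiftOn (conf x) (y - x) univ = conf (m := m) y := by
    funext F i
    simp only [shiftOn, mem_univ, if_true, conf, Pi.add_apply, Pi.sub_apply]
    ring
  rwa [h2] at h

lemma reach_all (x y : Fin (m + 1) → ℤ) :
    Relation.ReflTransGen (Legal (lattice (m + 1))) (Set.range (conf (m := m) x))
      (Set.range (conf (m := m) y)) := by
  obtain ⟨w⟩ := lattice_reachable x y
  induction w with
  | nil => exact Relation.ReflTransGen.refl
  | cons h _ ih => exact (reach_adj h).trans ih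

end Lower

section Concat

variable {X : Type}

lemma chain_of_reach {r : X → X → Prop} {a b : X} (h : Relation.ReflTransGen r a b) :
    ∃ l : List X, (a :: l).IsChain r ∧ (a :: l).getLast (by simp) = b := by
  induction h using Relation.ReflTransGen.head_induction_on with
  | refl => exact ⟨[], by simp, by simp⟩
  | @head a c h1 _ ih =>
    obtain ⟨l, hl1, hl2⟩ := ih
    refine ⟨c :: l, ?_, ?_⟩
    · rw [List.isChain_cons_cons]
      exact ⟨h1, hl1⟩
    · rw [List.getLast_cons (by simp)]
      exact hl2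

/-- One step of the machine: follow the current list; when it is exhausted take the next one. -/
def nxt (ch : ℕ → List X) (s : X × List X × ℕ) : X × List X × ℕ :=
  match s.2.1 with
  | [] => (s.1, ch s.2.2, s.2.2 + 1)
  | y :: l => (y, l, s.2.2)

lemma run_list (ch : ℕ → List X) (l : List X) : ∀ (x : X) (n : ℕ),
    (nxt ch)^[l.length] (x, l, n) = ((x :: l).getLast (by simp), [], n) := by
  induction l with
  | nil => intro x n; rfl
  | cons y l ih =>
    intro x n
    rw [List.length_cons, Function.iterate_succ_apply]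
    show (nxt ch)^[l.length] (y, l, n) = _
    rw [ih y n]
    rfl

lemma concat (r : X → X → Prop) (t : ℕ → X) (ht : ∀ n, Relation.ReflTransGen r (t n) (t (n + 1))) :
    ∃ T : ℕ → X, T 0 = t 0 ∧ (∀ n, T (n + 1) = T n ∨ r (T n) (T (n + 1))) ∧
      ∀ n, ∃ k, T k = t n := by
  choose ch hch1 hch2 using fun n => chain_of_reach (ht n)
  let st : ℕ → X × List X × ℕ := fun k => (nxt ch)^[k] (t 0, [], 0)
  have hst : ∀ k, st (k + 1) = nxt ch (st k) := fun k => Function.iterate_succ_apply' _ _ _
  have hinv : ∀ k, ((st k).1 :: (st k).2.1).IsChain r ∧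
      ((st k).1 :: (st k).2.1).getLast (by simp) = t (st k).2.2 := by
    intro k
    induction k with
    | zero => exact ⟨by simp [st], rfl⟩
    | succ k ih =>
      rw [hst]
      generalize st k = s at ih ⊢
      rcases s with ⟨x, l, n⟩
      cases l with
      | nil =>
        have hx : x = t n := ih.2
        subst hx
        exact ⟨hch1 n, hch2 n⟩
      | cons y l =>
        refine ⟨ih.1.tail, ?_⟩
        have := ih.2
        rw [List.getLast_cons (by simp)] at this
        exact this
  have hreach : ∀ n, ∃ k, st k = (t n, [], n) := by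
    intro n
    induction n with
    | zero => exact ⟨0, rfl⟩
    | succ n ih =>
      obtain ⟨k, hk⟩ := ih
      refine ⟨(ch n).length + (k + 1), ?_⟩
      show (nxt ch)^[(ch n).length + (k + 1)] (t 0, [], 0) = _
      rw [Function.iterate_add_apply]
      have h1 : (nxt ch)^[k + 1] (t 0, [], 0) = (t n, ch n, n + 1) := by
        have h2 := hst k
        rw [hk] at h2
        exact h2
      rw [h1, run_list, hch2 n]
  refine ⟨fun k => (st k).1, rfl, fun k => ?_, fun n => ?_⟩
  · show (st (k + 1)).1 = (st k).1 ∨ r (st k).1 (st (k + 1)).1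
    rw [hst]
    have h1 := hinv k
    generalize st k = s at h1 ⊢
    rcases s with ⟨x, l, n⟩
    cases l with
    | nil => exact Or.inl rfl
    | cons y l =>
      right
      have h2 := h1.1
      rw [List.isChain_cons_cons] at h2
      exact h2.1
  · obtain ⟨k, hk⟩ := hreach n
    exact ⟨k, by simp only [hk]⟩

end Concat

/-- The initial configuration is mobile. -/
lemma mobile_conf (m : ℕ) : IsMobile (lattice (m + 1)) (Set.range (conf (m := m) 0)) := by
  refine ⟨(margin_one (margin_conf 0)).genPos, ?_⟩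
  obtain ⟨g, hg⟩ := exists_surjective_nat (Fin (m + 1) → ℤ)
  let t : ℕ → Set (Fin (m + 1) → ℤ) := fun n =>
    match n with
    | 0 => Set.range (conf (m := m) 0)
    | n + 1 => Set.range (conf (m := m) (g n))
  obtain ⟨T, h1, h2, h3⟩ := concat (Legal (lattice (m + 1))) t (by
    intro n
    cases n with
    | zero => exact reach_all _ _
    | succ n => exact reach_all _ _)
  refine ⟨T, h1, h2, fun v => ?_⟩
  obtain ⟨n, hn⟩ := hg v
  obtain ⟨k, hk⟩ := h3 (n + 1)
  refine ⟨k, ?_⟩
  rw [hk]
  refine ⟨fun _ => false, ?_⟩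
  funext i
  simp [conf, pos, bv, hn]

/-- **The mobile general position number of the integer lattice.**  For every `k ≥ 1` (in
particular for `k ≥ 3`), `mob(P_∞^{k,□}) = 2 ^ (2 ^ (k - 1))`, and this value is attained. -/
theorem result : ∀ k : ℕ, 1 ≤ k → mob (lattice k) = 2 ^ (2 ^ (k - 1)) ∧
    ∃ S : Set (Fin k → ℤ), IsMobile (lattice k) S ∧ S.encard = 2 ^ (2 ^ (k - 1)) := by
  intro k hk
  obtain ⟨m, rfl⟩ : ∃ m, k = m + 1 := ⟨k - 1, by omega⟩
  rw [Nat.add_sub_cancel]
  have hex : IsMobile (lattice (m + 1)) (Set.range (conf (m := m) 0)) ∧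
      (Set.range (conf (m := m) 0)).encard = 2 ^ (2 ^ m) := by
    refine ⟨mobile_conf m, ?_⟩
    rw [← Set.image_univ, (margin_one (margin_conf 0)).injective.encard_image, Set.encard_univ,
      ENat.card_eq_coe_fintype_card]
    simp
  refine ⟨?_, _, hex⟩
  apply le_antisymm
  · apply sSup_le
    rintro n ⟨S, hS, rfl⟩
    exact upper S hS.1
  · exact le_sSup ⟨_, hex⟩

end Pool.Agent.Results.MP_903b9e_co.MobLattice
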